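import Mathlib

set_option autoImplicit false

namespace Pool.Agent.Results.MP_2aafb6_co.ShiftIdentity

/-- The integers `a 0, a 1, …, a n` (only these values of `a` matter) form an admissible
sequence for `b, c`: it starts at `0`, it is strictly increasing, and
`a (i + b) ≤ a i + c` for every `i` with `0 ≤ i ≤ n - b` (vacuous when `n < b`). -/
def Admissible (b c n : ℕ) (a : ℕ → ℤ) : Prop :=
  a 0 = 0 ∧ (∀ i, i < n → a i < a (i + 1)) ∧ ∀ i, i + b ≤ n → a (i + b) ≤ a i + c

/-- The sequence `a 0, …, a n` hits `k`: `a j - a i = k` for some `0 ≤ i < j ≤ n`. -/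
def Hits (k n : ℕ) (a : ℕ → ℤ) : Prop :=
  ∃ i j, i < j ∧ j ≤ n ∧ a j - a i = k

/-- `N b c k` is the least positive integer `n` such that every admissible sequence
`a 0, …, a n` hits `k`, and `⊤` (infinity) if there is no such `n`. -/
noncomputable def N (b c k : ℕ) : ℕ∞ :=
  ⨅ n ∈ {n : ℕ | 0 < n ∧ ∀ a : ℕ → ℤ, Admissible b c n a → Hits k n a}, (n : ℕ∞)

/-- There is an admissible sequence of length `n` which does not hit `k`. -/
def Av (b c k n : ℕ) : Prop := ∃ a : ℕ → ℤ, Admissible b c n a ∧ ¬ Hits k n a

lemma lt_of_step {a : ℕ → ℤ} {n : ℕ} (h : ∀ i, i < n → a i < a (i + 1)) :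
    ∀ j i, i < j → j ≤ n → a i < a j := by
  intro j
  induction j with
  | zero => intro i hi; omega
  | succ j ih =>
    intro i hi hj
    rcases Nat.lt_succ_iff_lt_or_eq.1 hi with h1 | h1
    · exact (ih i h1 (by omega)).trans (h j (by omega))
    · subst h1; exact h i (by omega)

lemma add_le_of_step {a : ℕ → ℤ} {n : ℕ} (h : ∀ i, i < n → a i < a (i + 1)) :
    ∀ d i, i + d ≤ n → a i + d ≤ a (i + d) := by
  intro d
  induction d with
  | zero => intro i _; simp
  | succ d ih =>
    intro i hi
    have h1 := ih i (by omega)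
    have h2 := h (i + d) (by omega)
    rw [← add_assoc]
    push_cast
    omega

/-- In a sequence avoiding the difference `k`, one has `a (j + k) ≥ a j + 2 k`. -/
lemma gap {a : ℕ → ℤ} {m k : ℕ} (hk : 0 < k) (h : ∀ i, i < m → a i < a (i + 1))
    (hav : ¬ Hits k m a) (j : ℕ) (hj : j + k ≤ m) : a j + 2 * k ≤ a (j + k) := by
  by_contra hcon
  push Not at hcon
  have hlt := lt_of_step h
  -- pigeonhole on residues modulo `k`
  have hmaps : ∀ i ∈ Finset.range (k + 1),
      ((a (j + i) - a j) % (k : ℤ)).toNat ∈ Finset.range k := by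
    intro i _
    rw [Finset.mem_range]
    have h0 : 0 ≤ (a (j + i) - a j) % (k : ℤ) := Int.emod_nonneg _ (by omega)
    have h1 : (a (j + i) - a j) % (k : ℤ) < k := Int.emod_lt_of_pos _ (by omega)
    omega
  obtain ⟨x, hx, y, hy, hxy, hxy'⟩ := Finset.exists_ne_map_eq_of_card_lt_of_maps_to
    (by simp) hmaps
  rw [Finset.mem_range] at hx hy
  have key : ∀ x y : ℕ, x < y → y < k + 1 →
      ((a (j + x) - a j) % (k : ℤ)).toNat = ((a (j + y) - a j) % (k : ℤ)).toNat → False := by
    intro x y hxy hy he
    have h0 : 0 ≤ (a (j + x) - a j) % (k : ℤ) := Int.emod_nonneg _ (by omega)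
    have h1 : 0 ≤ (a (j + y) - a j) % (k : ℤ) := Int.emod_nonneg _ (by omega)
    have h2 : (a (j + x) - a j) % (k : ℤ) = (a (j + y) - a j) % (k : ℤ) := by omega
    have h3 : (k : ℤ) ∣ (a (j + y) - a j) - (a (j + x) - a j) :=
      Int.emod_eq_emod_iff_emod_sub_eq_zero.1 h2.symm |> Int.dvd_of_emod_eq_zero
    obtain ⟨q, hq⟩ := h3
    have h4 : a (j + x) < a (j + y) := hlt _ _ (by omega) (by omega)
    have h5 : a j ≤ a (j + x) := by
      rcases Nat.eq_zero_or_pos x with h | h
      · subst h; simp
      · exact (hlt _ _ (by omega) (by omega)).le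
    have h6 : a (j + y) ≤ a (j + k) := by
      rcases Nat.lt_or_ge y k with h | h
      · exact (hlt _ _ (by omega) (by omega)).le
      · have : y = k := by omega
        subst this; simp
    have hkpos : (0 : ℤ) < k := by omega
    have h7 : 0 < q := by
      by_contra hq0
      push Not at hq0
      have : (k : ℤ) * q ≤ 0 := mul_nonpos_of_nonneg_of_nonpos (by omega) hq0
      omega
    have h8 : q < 2 := by
      by_contra hq0
      push Not at hq0
      have : (k : ℤ) * 2 ≤ k * q := mul_le_mul_of_nonneg_left hq0 (by omega)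
      omega
    have h9 : q = 1 := by omega
    subst h9
    exact hav ⟨j + x, j + y, by omega, by omega, by omega⟩
  rcases lt_or_gt_of_ne hxy with h1 | h1
  · exact key x y h1 hy hxy'
  · exact key y x h1 hx hxy'.symm

/-- Truncation: an avoiding admissible sequence for the shifted parameters yields one for the
original parameters. -/
lemma av_of_shift {b c k n : ℕ} (hk : 0 < k) (h : Av (b + k) (c + 2 * k) k (n + k)) :
    Av b c k n := by
  obtain ⟨a, ⟨h0, h1, h2⟩, h3⟩ := h
  refine ⟨a, ⟨h0, fun i hi => h1 i (by omega), fun i hi => ?_⟩, ?_⟩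
  · have h4 := h2 i (by omega)
    have h5 := gap hk h1 h3 (i + b) (by omega)
    rw [← add_assoc] at h4
    push_cast at h4
    omega
  · rintro ⟨i, j, hij, hj, he⟩
    exact h3 ⟨i, j, hij, by omega, he⟩

/-- The key position bound: in an avoiding admissible sequence with `c < 2 b`, every element
`a i` with `i ≤ n - b` is smaller than `k`. -/
lemma early_lt {b c k n : ℕ} (hb : 0 < b) (hk : 0 < k) (hc : c < 2 * b) {a : ℕ → ℤ}
    (ha : Admissible b c n a) (hav : ¬ Hits k n a) (i : ℕ) (hi : i + b ≤ n) : a i < k := by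
  obtain ⟨h0, h1, h2⟩ := ha
  have hlt := lt_of_step h1
  by_contra hcon
  push Not at hcon
  -- the first index with value at least `k`
  have hex : ∃ i, (k : ℤ) ≤ a i := ⟨i, hcon⟩
  classical
  obtain ⟨j', hj', hj'min⟩ : ∃ j', (k : ℤ) ≤ a j' ∧ ∀ l < j', a l < k :=
    ⟨Nat.find hex, Nat.find_spec hex, fun l hl => by
      have := Nat.find_min hex hl
      omega⟩
  have hj'i : j' ≤ i := by
    by_contra hlt'
    push Not at hlt'
    have := hj'min i hlt'
    omega
  have hj'pos : j' ≠ 0 := by
    rintro rfl
    rw [h0] at hj'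
    omega
  obtain ⟨j, rfl⟩ := Nat.exists_eq_succ_of_ne_zero hj'pos
  have hjlt : a j < k := hj'min j (Nat.lt_succ_self j)
  have hjwin : a (j + b) ≤ a j + c := h2 j (by omega)
  have hwin0 : a b ≤ c := by
    have := h2 0 (by omega)
    simpa [h0] using this
  have hne : a (j + 1) ≠ k := fun he => hav ⟨0, j + 1, by omega, by omega, by omega⟩
  -- two disjoint sets of `b` integers inside `(0, c]`
  set A : Finset ℤ := (Finset.range b).image (fun x => a (x + 1)) with hA
  set B : Finset ℤ := (Finset.range b).image (fun x => a (j + 1 + x) - k) with hB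
  have hmono : ∀ x y, x ≤ y → y ≤ n → a x ≤ a y := by
    intro x y hxy hy
    rcases Nat.lt_or_ge x y with h | h
    · exact (hlt _ _ h hy).le
    · have : x = y := by omega
      subst this; exact le_refl _
  have hcardA : A.card = b := by
    rw [hA, Finset.card_image_of_injOn, Finset.card_range]
    intro x hx y hy hxy
    simp only [Finset.coe_range, Set.mem_Iio] at hx hy
    by_contra hne'
    rcases lt_or_gt_of_ne hne' with h | h
    · have := hlt (y + 1) (x + 1) (by omega) (by omega)
      simp only at hxy
      omega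
    · have := hlt (x + 1) (y + 1) (by omega) (by omega)
      simp only at hxy
      omega
  have hcardB : B.card = b := by
    rw [hB, Finset.card_image_of_injOn, Finset.card_range]
    intro x hx y hy hxy
    simp only [Finset.coe_range, Set.mem_Iio] at hx hy
    by_contra hne'
    rcases lt_or_gt_of_ne hne' with h | h
    · have := hlt (j + 1 + y) (j + 1 + x) (by omega) (by omega)
      simp only at hxy
      omega
    · have := hlt (j + 1 + x) (j + 1 + y) (by omega) (by omega)
      simp only at hxy
      omega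
  have hdisj : Disjoint A B := by
    rw [Finset.disjoint_left]
    intro z hzA hzB
    rw [hA, Finset.mem_image] at hzA
    rw [hB, Finset.mem_image] at hzB
    obtain ⟨x, hx, hxz⟩ := hzA
    obtain ⟨y, hy, hyz⟩ := hzB
    rw [Finset.mem_range] at hx hy
    apply hav
    refine ⟨x + 1, j + 1 + y, ?_, by omega, by omega⟩
    by_contra hge
    push Not at hge
    have := hmono _ _ hge (by omega)
    omega
  have hsubA : A ⊆ Finset.Ioc 0 (c : ℤ) := by
    intro z hz
    rw [hA, Finset.mem_image] at hz
    obtain ⟨x, hx, rfl⟩ := hz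
    rw [Finset.mem_range] at hx
    rw [Finset.mem_Ioc]
    have e1 := hlt (x + 1) 0 (by omega) (by omega)
    have e2 := hmono (x + 1) b (by omega) (by omega)
    constructor <;> omega
  have hsubB : B ⊆ Finset.Ioc 0 (c : ℤ) := by
    intro z hz
    rw [hB, Finset.mem_image] at hz
    obtain ⟨x, hx, rfl⟩ := hz
    rw [Finset.mem_range] at hx
    rw [Finset.mem_Ioc]
    have e1 := hmono (j + 1) (j + 1 + x) (by omega) (by omega)
    have e2 := hmono (j + 1 + x) (j + b) (by omega) (by omega)
    have e3 : (k : ℤ) ≤ a (j + 1) := hj'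
    constructor <;> omega
  have hcard := Finset.card_le_card (Finset.union_subset hsubA hsubB)
  rw [Finset.card_union_of_disjoint hdisj, hcardA, hcardB, Int.card_Ioc] at hcard
  omega

/-- Counting a predicate and its negation. -/
lemma count_add_count_not' (p : ℕ → Prop) [DecidablePred p] (m : ℕ) :
    Nat.count p m + Nat.count (fun z => ¬ p z) m = m := by
  induction m with
  | zero => simp
  | succ m ih =>
    rw [Nat.count_succ, Nat.count_succ]
    by_cases h : p m
    · simp only [h, if_true, not_true, if_false]; omega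
    · simp only [h, if_false, not_false_iff, if_true]; omega

/-- Splicing: an avoiding admissible sequence for `b, c` yields one with `k` further elements for
`b + k, c + 2 k`. -/
lemma shift_of_av {b c k n : ℕ} (hb : 0 < b) (hk : 0 < k) (hc : c < 2 * b)
    (h : Av b c k n) : Av (b + k) (c + 2 * k) k (n + k) := by
  classical
  obtain ⟨a, ha, hav⟩ := h
  have hearly := early_lt hb hk hc ha hav
  obtain ⟨h0, h1, h2⟩ := ha
  have hlt := lt_of_step h1
  have hmono : ∀ x y, x ≤ y → y ≤ n → a x ≤ a y := by
    intro x y hxy hy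
    rcases Nat.lt_or_ge x y with h | h
    · exact (hlt _ _ h hy).le
    · have : x = y := by omega
      subst this; exact le_refl _
  -- natural valued version
  obtain ⟨u, hu⟩ : ∃ u : ℕ → ℕ, ∀ i, i ≤ n → (u i : ℤ) = a i := by
    refine ⟨fun i => (a i).toNat, fun i hi => ?_⟩
    have := hmono 0 i (by omega) hi
    rw [h0] at this
    exact Int.toNat_of_nonneg this
  have u0 : u 0 = 0 := by
    have := hu 0 (by omega)
    rw [h0] at this
    omega
  have ult : ∀ x y, x < y → y ≤ n → u x < u y := by
    intro x y hxy hy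
    have e1 := hlt _ _ hxy hy
    have e2 := hu x (by omega)
    have e3 := hu y hy
    omega
  have umono : ∀ x y, x ≤ y → y ≤ n → u x ≤ u y := by
    intro x y hxy hy
    have e1 := hmono x y hxy hy
    have e2 := hu x (by omega)
    have e3 := hu y hy
    omega
  set L : ℕ := u n + c + k + 1 with hL
  -- the set of values, made infinite by adding everything from `L` on
  obtain ⟨s, hs⟩ : ∃ s : ℕ → Prop, s = fun z => (∃ i, i ≤ n ∧ u i = z) ∨ L ≤ z := ⟨_, rfl⟩
  have s_of : ∀ i, i ≤ n → s (u i) := fun i hi => by rw [hs]; exact Or.inl ⟨i, hi, rfl⟩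
  have of_s : ∀ z, s z → z < L → ∃ i, i ≤ n ∧ u i = z := by
    intro z hz hzL
    rw [hs] at hz
    rcases hz with hz | hz
    · exact hz
    · omega
  have count_u : ∀ i, i ≤ n → Nat.count s (u i) = i := by
    intro i hi
    rw [Nat.count_eq_card_filter_range]
    have : (Finset.range (u i)).filter s = (Finset.range i).image u := by
      ext z
      rw [Finset.mem_filter, Finset.mem_range, Finset.mem_image]
      constructor
      · rintro ⟨hz1, hz2⟩
        have := umono i n hi (le_refl _)
        obtain ⟨j, hj, rfl⟩ := of_s z hz2 (by omega)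
        refine ⟨j, ?_, rfl⟩
        rw [Finset.mem_range]
        by_contra hcon
        push Not at hcon
        have := umono i j hcon hj
        omega
      · rintro ⟨j, hj, rfl⟩
        rw [Finset.mem_range] at hj
        exact ⟨ult j i hj hi, s_of j (by omega)⟩
    rw [this, Finset.card_image_of_injOn, Finset.card_range]
    intro x hx y hy hxy
    simp only [Finset.coe_range, Set.mem_Iio] at hx hy
    by_contra hne
    rcases lt_or_gt_of_ne hne with h | h
    · have := ult x y h (by omega)
      omega
    · have := ult y x h (by omega)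
      omega
  have count_u_succ : ∀ i, i ≤ n → Nat.count s (u i + 1) = i + 1 := by
    intro i hi
    rw [Nat.count_succ, count_u i hi, if_pos (s_of i hi)]
  have count_L : n + 1 ≤ Nat.count s L := by
    rw [← count_u_succ n (le_refl _)]
    exact Nat.count_monotone s (by omega)
  -- the spliced set
  obtain ⟨t, ht⟩ : ∃ t : ℕ → Prop, t = fun z => if z < k then s z else
      if z < 2 * k then ¬ s (z - k) else s (z - 2 * k) := ⟨_, rfl⟩
  have t_low : ∀ z, z < k → (t z ↔ s z) := by
    intro z hz
    simp only [ht, if_pos hz]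
  have t_mid : ∀ z, z < k → (t (k + z) ↔ ¬ s z) := by
    intro z hz
    simp only [ht]
    rw [if_neg (by omega), if_pos (by omega), Nat.add_sub_cancel_left]
  have t_high : ∀ z, (t (2 * k + z) ↔ s z) := by
    intro z
    simp only [ht]
    rw [if_neg (by omega), if_neg (by omega), Nat.add_sub_cancel_left]
  have tinf : (Set.ofPred t).Infinite := by
    apply Set.infinite_of_not_bddAbove
    rintro ⟨B, hB⟩
    have : t (2 * k + (L + B + 1)) := (t_high _).2 (by rw [hs]; exact Or.inr (by omega))
    have := hB this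
    omega
  have hcongr : ∀ (p q : ℕ → Prop) [DecidablePred p] [DecidablePred q] (m : ℕ),
      (∀ z, z < m → (p z ↔ q z)) → Nat.count p m = Nat.count q m := by
    intro p q _ _ m hpq
    apply le_antisymm
    · exact Nat.count_mono_left fun z hz => (hpq z hz).1
    · exact Nat.count_mono_left fun z hz => (hpq z hz).2
  have count_low : ∀ z, z ≤ k → Nat.count t z = Nat.count s z := by
    intro z hz
    exact hcongr t s z fun y hy => t_low y (by omega)
  have count_high : ∀ z, Nat.count t (2 * k + z) = Nat.count s z + k := by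
    intro z
    rw [Nat.count_add, two_mul, Nat.count_add, count_low k (le_refl _)]
    have e1 : Nat.count (fun z => t (k + z)) k = Nat.count (fun z => ¬ s z) k :=
      hcongr _ _ _ fun y hy => t_mid y hy
    have e2 : Nat.count (fun z => t (k + k + z)) z = Nat.count s z := by
      apply hcongr
      intro y _
      rw [← two_mul]
      exact t_high y
    rw [e1, e2, count_add_count_not']
    omega
  have nth_early : ∀ i, i ≤ n → u i < k → Nat.nth t i = u i := by
    intro i hi hik
    have e1 : Nat.count t (u i) = i := by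
      rw [count_low _ hik.le, count_u i hi]
    have e2 : t (u i) := (t_low _ hik).2 (s_of i hi)
    have := Nat.nth_count e2
    rwa [e1] at this
  have nth_top : Nat.nth t (n + k) < 2 * k + L := by
    apply Nat.nth_lt_of_lt_count
    rw [count_high]
    omega
  refine ⟨fun i => (Nat.nth t i : ℤ), ⟨?_, ?_, ?_⟩, ?_⟩
  · have : Nat.nth t 0 = u 0 := nth_early 0 (by omega) (by omega)
    simp only [this, u0]
    rfl
  · intro i _
    have := Nat.nth_strictMono tinf (Nat.lt_succ_self i)
    show ((Nat.nth t i : ℕ) : ℤ) < ((Nat.nth t (i + 1) : ℕ) : ℤ)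
    exact_mod_cast this
  · intro i hi
    have hib : i + b ≤ n := by omega
    have e1 : u i < k := by
      have e1 := hearly i hib
      have e2 := hu i (by omega)
      omega
    have e2 := nth_early i (by omega) e1
    have e3 : u (i + b) ≤ u i + c := by
      have e1 := h2 i hib
      have e2 := hu i (by omega)
      have e3 := hu (i + b) hib
      omega
    have e4 : Nat.nth t (i + (b + k)) < 2 * k + (u i + c + 1) := by
      apply Nat.nth_lt_of_lt_count
      rw [count_high]
      have e4 := count_u_succ (i + b) hib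
      have e5 := Nat.count_monotone s (show u (i + b) + 1 ≤ u i + c + 1 by omega)
      omega
    simp only [e2]
    push_cast
    omega
  · rintro ⟨i, j, hij, hj, he⟩
    simp only at he
    have hzj : Nat.nth t j = Nat.nth t i + k := by omega
    have ti : t (Nat.nth t i) := Nat.nth_mem_of_infinite tinf i
    have tj : t (Nat.nth t j) := Nat.nth_mem_of_infinite tinf j
    have htop : Nat.nth t j < 2 * k + L :=
      lt_of_le_of_lt ((Nat.nth_le_nth tinf).2 hj) nth_top
    rw [hzj] at tj htop
    generalize Nat.nth t i = z at ti tj htop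
    rcases Nat.lt_or_ge z k with hz | hz
    · rw [add_comm z k, t_mid z hz] at tj
      exact tj ((t_low z hz).1 ti)
    · rcases Nat.lt_or_ge z (2 * k) with hz2 | hz2
      · obtain ⟨y, rfl⟩ := Nat.exists_eq_add_of_le hz
        rw [t_mid y (by omega)] at ti
        have : k + y + k = 2 * k + y := by omega
        rw [this, t_high] at tj
        exact ti tj
      · obtain ⟨y, rfl⟩ := Nat.exists_eq_add_of_le hz2
        rw [t_high] at ti
        have : 2 * k + y + k = 2 * k + (y + k) := by omega
        rw [this, t_high] at tj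
        obtain ⟨x1, hx1, e1⟩ := of_s _ ti (by omega)
        obtain ⟨x2, hx2, e2⟩ := of_s _ tj (by omega)
        apply hav
        refine ⟨x1, x2, ?_, hx2, ?_⟩
        · by_contra hge
          push Not at hge
          have := umono _ _ hge hx1
          omega
        · rw [← hu x1 hx1, ← hu x2 hx2, e1, e2]
          push_cast
          omega

/-- Truncating an avoiding admissible sequence. -/
lemma Av.mono {b c k m n : ℕ} (hmn : m ≤ n) (h : Av b c k n) : Av b c k m := by
  obtain ⟨a, ⟨h0, h1, h2⟩, h3⟩ := h
  refine ⟨a, ⟨h0, fun i hi => h1 i (by omega), fun i hi => h2 i (by omega)⟩, ?_⟩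
  rintro ⟨i, j, hij, hj, he⟩
  exact h3 ⟨i, j, hij, by omega, he⟩

/-- The one-element sequence. -/
lemma av_zero {b c k : ℕ} (hb : 0 < b) : Av b c k 0 := by
  refine ⟨fun _ => 0, ⟨rfl, fun i hi => by omega, fun i hi => by omega⟩, ?_⟩
  rintro ⟨i, j, hij, hj, he⟩
  omega

lemma mem_iff {b c k n : ℕ} :
    (∀ a : ℕ → ℤ, Admissible b c n a → Hits k n a) ↔ ¬ Av b c k n := by
  unfold Av
  push Not
  rfl

/-- **The shift identity.** For all positive integers `b, c, k` with `b ≤ c < 2 b`,
`N (b + k) (c + 2 k) k = N b c k + k`. -/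
theorem result : ∀ b c k : ℕ, 0 < b → 0 < k → b ≤ c → c < 2 * b →
    N (b + k) (c + 2 * k) k = N b c k + k := by
  intro b c k hb hk _ hc
  have hiff : ∀ n, Av (b + k) (c + 2 * k) k (n + k) ↔ Av b c k n := fun n =>
    ⟨av_of_shift hk, shift_of_av hb hk hc⟩
  have hz : Av b c k 0 := av_zero hb
  unfold N
  simp only [Set.mem_ofPred_eq, mem_iff]
  apply le_antisymm
  · -- `≤`
    rcases eq_or_ne (⨅ n, ⨅ (_ : 0 < n ∧ ¬ Av b c k n), (n : ℕ∞)) ⊤ with htop | htop
    · rw [htop]; simp
    · obtain ⟨m, hm⟩ := ENat.ne_top_iff_exists.1 htop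
      -- the infimum is attained
      have hatt : 0 < m ∧ ¬ Av b c k m := by
        by_contra hcon
        have : ((m + 1 : ℕ) : ℕ∞) ≤ (⨅ n, ⨅ (_ : 0 < n ∧ ¬ Av b c k n), (n : ℕ∞)) := by
          refine le_iInf₂ fun n hn => ?_
          have h1 : (m : ℕ∞) ≤ n := by
            rw [hm]
            exact iInf₂_le n hn
          have h2 : m ≤ n := by exact_mod_cast h1
          have h3 : m ≠ n := by
            rintro rfl
            exact hcon hn
          exact_mod_cast (show m + 1 ≤ n by omega)
        rw [← hm] at this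
        have h4 : m + 1 ≤ m := by exact_mod_cast this
        omega
      rw [← hm]
      have h5 : 0 < m + k ∧ ¬ Av (b + k) (c + 2 * k) k (m + k) :=
        ⟨by omega, fun h => hatt.2 ((hiff m).1 h)⟩
      have h6 := iInf₂_le (f := fun (n : ℕ) (_ : 0 < n ∧ ¬ Av (b + k) (c + 2 * k) k n) =>
        (n : ℕ∞)) (m + k) h5
      exact_mod_cast h6
  · -- `≥`
    refine le_iInf₂ fun n hn => ?_
    have h1 : k < n := by
      by_contra hcon
      push Not at hcon
      exact hn.2 (Av.mono (show n ≤ 0 + k by omega) ((hiff 0).2 hz))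
    obtain ⟨m, rfl⟩ := Nat.exists_eq_add_of_lt h1
    have h2 : k + m + 1 = (m + 1) + k := by omega
    rw [h2] at hn ⊢
    have h3 : 0 < m + 1 ∧ ¬ Av b c k (m + 1) := ⟨by omega, fun h => hn.2 ((hiff _).2 h)⟩
    have h4 := iInf₂_le (f := fun (n : ℕ) (_ : 0 < n ∧ ¬ Av b c k n) =>
        (n : ℕ∞)) (m + 1) h3
    have h5 : (((m + 1) + k : ℕ) : ℕ∞) = ((m + 1 : ℕ) : ℕ∞) + (k : ℕ∞) := by push_cast; rfl
    rw [h5]
    exact add_le_add h4 (le_refl _)

end Pool.Agent.Results.MP_2aafb6_co.ShiftIdentity
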